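import Mathlib
import Pool.Agent.HC.Almost

/-!
# Almost all connected bridgeless cubic graphs have two-homogeneous colourings
-/

namespace Pool.Agent.Results.MP_56b853_co.AlmostAll

/-- There are absolute constants `k` and `C` such that for every `n` the number of connected
bridgeless cubic graphs on the vertices `0, ..., n - 1` which have no proper colouring with `k`
colours in which every open neighbourhood sees exactly two colours is at most `C / n` times the
number of all connected bridgeless cubic graphs on these vertices. -/
theorem result : ∃ k C : ℕ, ∀ n : ℕ,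
    n * {G : SimpleGraph (Fin n) | G.Connected ∧ (∀ v, (G.neighborSet v).ncard = 3) ∧
      (∀ e ∈ G.edgeSet, ¬ G.IsBridge e) ∧
      ¬ ∃ c : Fin n → Fin k, (∀ u v, G.Adj u v → c u ≠ c v) ∧
        ∀ v, (c '' G.neighborSet v).ncard = 2}.ncard ≤
    C * {G : SimpleGraph (Fin n) | G.Connected ∧ (∀ v, (G.neighborSet v).ncard = 3) ∧
      ∀ e ∈ G.edgeSet, ¬ G.IsBridge e}.ncard :=
  Pool.Agent.HC.main_almost

end Pool.Agent.Results.MP_56b853_co.AlmostAll
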