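import Mathlib
import Pool.Agent.H13.CC.Main

/-!
# Cubic Cayley graphs have two-homogeneous colourings
-/

namespace Pool.Agent.Results.MP_56b853_co.CubicCayley

/-- Let `G` be a finite connected non-bipartite cubic graph with a number of vertices different
from four, and suppose that some group `H` of automorphisms of `G` acts simply transitively on the
vertices.  Then `G` has a proper colouring in which every open neighbourhood sees exactly two
colours. -/
theorem result (V : Type) [Finite V] (G : SimpleGraph V) (hconn : G.Connected)
    (hcub : ∀ v : V, (G.neighborSet v).ncard = 3)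
    (H : Subgroup (G ≃g G)) (hH : ∀ v w : V, ∃! φ : G ≃g G, φ ∈ H ∧ φ v = w)
    (hbip : ¬ G.IsBipartite) (hK : Nat.card V ≠ 4) :
    ∃ (k : ℕ) (c : V → Fin k), (∀ u v : V, G.Adj u v → c u ≠ c v) ∧
      ∀ v : V, (c '' G.neighborSet v).ncard = 2 := by
  obtain ⟨k, c, hc⟩ := H13CC.main V G hconn hcub H hH hbip hK
  exact ⟨k, c, fun u v huv => c.valid huv, hc⟩

end Pool.Agent.Results.MP_56b853_co.CubicCayley
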