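import Mathlib
import Pool.Agent.HC.LocMain

/-!
# Locally unicyclic cubic graphs have two-homogeneous colourings
-/

namespace Pool.Agent.Results.MP_56b853_co.LocallyUnicyclic

/-- There are absolute constants `N` and `k` such that every finite cubic graph which has a
perfect matching or has no bridge, and in which every set `S` of at most `N` vertices spans at
most `|S|` edges, has a proper colouring with `k` colours in which every open neighbourhood sees
exactly two colours. -/
theorem result : ∃ N k : ℕ, ∀ (V : Type) [Finite V] (G : SimpleGraph V),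
    (∀ v : V, (G.neighborSet v).ncard = 3) →
    ((∃ M : G.Subgraph, M.IsPerfectMatching) ∨ ∀ e ∈ G.edgeSet, ¬ G.IsBridge e) →
    (∀ S : Set V, S.ncard ≤ N → {e | e ∈ G.edgeSet ∧ ∀ v ∈ e, v ∈ S}.ncard ≤ S.ncard) →
    ∃ c : V → Fin k, (∀ u v : V, G.Adj u v → c u ≠ c v) ∧
      ∀ v : V, (c '' G.neighborSet v).ncard = 2 := by
  obtain ⟨N, k, h⟩ := Pool.Agent.HC.main_local
  refine ⟨N, k, ?_⟩
  intro V _ G h3 hM hS
  rcases hM with hM | hb
  · exact h V G h3 hM hS
  · exact h V G h3 (Pool.Agent.H32.Hom.exists_perfectMatching G h3 hb) hS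

end Pool.Agent.Results.MP_56b853_co.LocallyUnicyclic
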